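import Mathlib
import Pool.Agent.TH497.PW.IntFlow
import Pool.Agent.TH362.FP.Pos
import Pool.Agent.Y335.FL.Main
import Pool.Agent.X65.FT.Pack

set_option autoImplicit false

/-!
# Graphs without many large disjoint connected sets (MP_c8786f_co)

Let `G` be a bridgeless multigraph and `2 ≤ j ≤ 6`.  Suppose that there are no `126 / (2 ^ j - 1)`
(that is 42, 18, 8, 4, 2; rounded down) pairwise disjoint connected sets of vertices, each with at
least `2 ^ j - 1` vertices of degree at least three.  Then `G` has a nowhere-zero 5-flow, and the
characteristic polynomial of its bond matroid is positive at all integers `q ≥ 5`.  For example this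
holds if there are no two disjoint connected sets with 63 vertices of degree at least three each, or
if there are at most 41 vertices such that the components of the rest have at most two vertices of
degree at least three.  As Tutte's 12-cage has 126 vertices, the numbers are the limit of the method.

Proof.  The class is closed under contractions: take the preimages of the sets; if the new vertex
has degree at least three, then so has one of the two ends of the contracted edge.  Let `G` be a
counterexample with as few edges as possible.  Circuits with at most eleven edges can be contracted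
(library `Y335/FL` of helper335), and so can one of two edges which form a cut; hence `G` has girth
at least twelve and all degrees are at least three (apart from isolated vertices).  Grow a binary
tree of depth five from both ends of an edge.  Both trees have 63 vertices, and they contain
`63 / (2 ^ j - 1)` disjoint complete binary trees of depth `j - 1`, which have `2 ^ j - 1` vertices.
-/


namespace Pool.Agent.Results.MP_c8786f_co.ConnectedSets

open Pool.Agent.TH497.PW

variable {V E : Type}

/-- The edges with exactly one end in `X`. -/
def boundary [DecidableEq V] [Fintype E] (src dst : E → V) (X : Finset V) : Finset E :=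
  Finset.univ.filter (fun e => ¬ (src e ∈ X ↔ dst e ∈ X))

/-- Kirchhoff's law. -/
def IsFlow [DecidableEq V] [Fintype E] (src dst : E → V) (f : E → ℤ) : Prop :=
  ∀ v : V, ∑ e ∈ Finset.univ.filter (fun e => src e = v), f e
    = ∑ e ∈ Finset.univ.filter (fun e => dst e = v), f e

/-- The degree of `v`; loops are not counted. -/
def properDegree [DecidableEq V] [Fintype E] (src dst : E → V) (v : V) : ℕ :=
  (Finset.univ.filter (fun e => src e ≠ dst e ∧ (src e = v ∨ dst e = v))).card

/-- The number of the components of the graph with the vertices `V` and the edges `A`. -/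
noncomputable def components (src dst : E → V) (A : Finset E) : ℕ :=
  Nat.card (SimpleGraph.fromRel
    (fun u v : V => ∃ e ∈ A, src e = u ∧ dst e = v)).ConnectedComponent

/-- The rank of `A` in the cycle matroid of the graph. -/
noncomputable def cycleRank [Fintype V] (src dst : E → V) (A : Finset E) : ℕ :=
  Fintype.card V - components src dst A

/-- The rank of `A` in the bond matroid of the graph (the dual of the cycle matroid). -/
noncomputable def bondRank [Fintype V] [Fintype E] [DecidableEq E] (src dst : E → V)
    (A : Finset E) : ℕ :=
  A.card + cycleRank src dst Aᶜ - cycleRank src dst Finset.univ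

/-- The characteristic polynomial of the bond matroid at the integer `x`. -/
noncomputable def bondCharPoly [Fintype V] [Fintype E] [DecidableEq E] (src dst : E → V)
    (x : ℤ) : ℤ :=
  ∑ A : Finset E, (-1) ^ A.card * x ^ (bondRank src dst Finset.univ - bondRank src dst A)

theorem isFlow_iff [DecidableEq V] [Fintype E] (src dst : E → V) (f : E → ℤ) :
    IsFlow src dst f ↔
      ∀ v, ∑ e, f e * ((if src e = v then 1 else 0) - (if dst e = v then 1 else 0)) = 0 := by
  unfold IsFlow
  refine forall_congr' fun v => ?_
  rw [Finset.sum_filter, Finset.sum_filter, ← sub_eq_zero, ← Finset.sum_sub_distrib]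
  have : ∀ e, (if src e = v then f e else 0) - (if dst e = v then f e else 0)
      = f e * ((if src e = v then 1 else 0) - (if dst e = v then 1 else 0)) := by
    intro e
    by_cases h1 : src e = v <;> by_cases h2 : dst e = v <;> simp [h1, h2]
  rw [Finset.sum_congr rfl (fun e _ => this e)]

theorem nzf [Fintype V] [DecidableEq V] [Fintype E] [DecidableEq E] (src dst : E → V)
    (h : Pool.Agent.TH676.Z.FlowOn src dst ∅ ∅) : NZF src dst := by
  obtain ⟨f, h1, _, h3⟩ := h
  refine ⟨f, fun e => h3 e (Finset.notMem_empty _) (Finset.notMem_empty _), fun x => ?_⟩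
  rw [← h1 x]
  unfold Pool.Agent.TH676.Z.bd
  refine Finset.sum_congr rfl fun e _ => ?_
  unfold ic
  by_cases h4 : src e = x <;> by_cases h5 : dst e = x <;> simp [h4, h5]

theorem charPoly_pos [Fintype V] [DecidableEq V] [Fintype E] [DecidableEq E] (src dst : E → V)
    (f : E → ℤ) (h1 : IsFlow src dst f) (h2 : ∀ e, 1 ≤ |f e| ∧ |f e| ≤ 4) (q : ℕ) (hq : 5 ≤ q) :
    0 < bondCharPoly src dst q :=
  Pool.Agent.TH362.FP.chr_pos src dst f h2 h1 q hq

/-- There is an edge between `x` and `y`, and `x ≠ y`. -/
def Adjacent (src dst : E → V) (x y : V) : Prop :=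
  x ≠ y ∧ ∃ e, (src e = x ∧ dst e = y) ∨ (src e = y ∧ dst e = x)

/-- Every nonempty proper subset of `A` has a vertex which is adjacent to another vertex of
`A` outside this subset. -/
def IsConnectedSet (src dst : E → V) (A : Finset V) : Prop :=
  ∀ B ⊆ A, B.Nonempty → B ≠ A → ∃ x ∈ B, ∃ y ∈ A, y ∉ B ∧ Adjacent src dst x y

theorem result :
    ∀ (V E : Type) [Fintype V] [DecidableEq V] [Fintype E] [DecidableEq E] (src dst : E → V)
      (j : ℕ), 2 ≤ j → j ≤ 6 →
      (∀ (n : ℕ) (C : Fin n → Finset V), (∀ i, IsConnectedSet src dst (C i)) →
        (∀ i, 2 ^ j - 1 ≤ ((C i).filter fun x => 3 ≤ properDegree src dst x).card) →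
        (∀ i i', i ≠ i' → Disjoint (C i) (C i')) → n < 126 / (2 ^ j - 1)) →
      (∀ Y : Finset V, (boundary src dst Y).card ≠ 1) →
      (∃ f : E → ℤ, IsFlow src dst f ∧ ∀ e, 1 ≤ |f e| ∧ |f e| ≤ 4) ∧
      ∀ q : ℕ, 5 ≤ q → 0 < bondCharPoly src dst q := by
  intro V E _ _ _ _ src dst j hj hj6 hm hb
  have hcl : Pool.Agent.X65.FT.ClP (2 ^ j - 1) (126 / (2 ^ j - 1)) src dst := hm
  have hfl := Pool.Agent.X65.FT.flow_of_ClP Pool.Agent.Y335.FL.contract_all src dst j (by omega)
    hj6 hcl (fun Y _ => by rw [Finset.sdiff_empty]; exact hb Y)
  obtain ⟨F, hF, hF0⟩ := int_flow src dst (nzf src dst hfl)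
  have hF1 := (isFlow_iff src dst F).mpr hF0
  exact ⟨⟨F, hF1, hF⟩, fun q hq => charPoly_pos src dst F hF1 hF q hq⟩

end Pool.Agent.Results.MP_c8786f_co.ConnectedSets
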