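import Mathlib
import Pool.Agent.TH497.PW.IntFlow
import Pool.Agent.TH362.FP.Pos
import Pool.Agent.Y335.FL.Main
import Pool.Agent.Y335.FL.Local11
import Pool.Agent.X42.FlowCuts

set_option autoImplicit false

/-!
# Graphs with at most 125 edge cuts of size three (MP_c8786f_co)

Let `C_1, ..., C_m` be cycles (supports of flows with values in `{0, 1, -1}`) of a bridgeless
multigraph `G`, each with at most eleven edges outside the union of the earlier ones (`m = 0` is
allowed), and let `F` be their union.  Suppose that there are no 126 pairwise disjoint vertex sets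
whose boundaries are pairwise different, have exactly three edges and avoid `F`.  Then `G` has a
nowhere-zero 5-flow, and the characteristic polynomial of the bond matroid of `G` is positive at all
integers `q ≥ 5`.  In particular this holds for all bridgeless multigraphs with at most 125 edge
cuts of size three, and for those in which at most 125 edge cuts of size three avoid `F`.

Proof.  Cycles with at most eleven new edges can be contracted (library `Y335/FL`), so let `F = ∅`.
The condition is inherited by contractions.  Let `H` be a counterexample such that all its proper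
contractions have nowhere-zero 5-flows, let `n` be the number of its vertices (without isolated
ones) and let `a` of them have degree at least four.  Then `H` has girth at least twelve and all
degrees are at least three (library `Y335/FL`, `Y358/IN`), and `3 |E| ≤ 5 n - 6` (library
`TH362/FF`: otherwise a subgraph has strength at least `5/3` and can be contracted), so that at
least `2 a + 12` vertices have degree three.  By the Moore bound for irregular graphs (Alon, Hoory,
Linial), `n ≥ 126 + 258 a / n`.  Suppose that at most 125 vertices have degree three.  Then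
`n ≤ 125 + a`, `a ≤ 56`, `n ≤ 181` and `258 a ≤ n (n - 126) ≤ 181 (a - 1)`, a contradiction.  So
there are 126 vertices of degree three, and their fibres in `G` are vertex sets as excluded.
-/

namespace Pool.Agent.Results.MP_c8786f_co.FewThreeEdgeCuts

open Pool.Agent.TH497.PW

variable {V E : Type}

/-- The edges with exactly one end in `X`. -/
def boundary [DecidableEq V] [Fintype E] (src dst : E → V) (X : Finset V) : Finset E :=
  Finset.univ.filter (fun e => ¬ (src e ∈ X ↔ dst e ∈ X))

/-- Kirchhoff's law. -/
def IsFlow [DecidableEq V] [Fintype E] (src dst : E → V) (f : E → ℤ) : Prop :=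
  ∀ v : V, ∑ e ∈ Finset.univ.filter (fun e => src e = v), f e
    = ∑ e ∈ Finset.univ.filter (fun e => dst e = v), f e

/-- `C` is a cycle: the support of an integer flow with the values `0`, `1` and `-1`. -/
def IsCycle [DecidableEq V] [Fintype E] (src dst : E → V) (C : Finset E) : Prop :=
  ∃ z : E → ℤ, IsFlow src dst z ∧ (∀ e, z e = 0 ∨ z e = 1 ∨ z e = -1) ∧ ∀ e, z e ≠ 0 ↔ e ∈ C

/-- The number of the components of the graph with the vertices `V` and the edges `A`. -/
noncomputable def components (src dst : E → V) (A : Finset E) : ℕ :=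
  Nat.card (SimpleGraph.fromRel
    (fun u v : V => ∃ e ∈ A, src e = u ∧ dst e = v)).ConnectedComponent

/-- The rank of `A` in the cycle matroid of the graph. -/
noncomputable def cycleRank [Fintype V] (src dst : E → V) (A : Finset E) : ℕ :=
  Fintype.card V - components src dst A

/-- The rank of `A` in the bond matroid of the graph (the dual of the cycle matroid). -/
noncomputable def bondRank [Fintype V] [Fintype E] [DecidableEq E] (src dst : E → V)
    (A : Finset E) : ℕ :=
  A.card + cycleRank src dst Aᶜ - cycleRank src dst Finset.univ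

/-- The characteristic polynomial of the bond matroid at the integer `x`. -/
noncomputable def bondCharPoly [Fintype V] [Fintype E] [DecidableEq E] (src dst : E → V)
    (x : ℤ) : ℤ :=
  ∑ A : Finset E, (-1) ^ A.card * x ^ (bondRank src dst Finset.univ - bondRank src dst A)

theorem isFlow_iff [DecidableEq V] [Fintype E] (src dst : E → V) (f : E → ℤ) :
    IsFlow src dst f ↔
      ∀ v, ∑ e, f e * ((if src e = v then 1 else 0) - (if dst e = v then 1 else 0)) = 0 := by
  unfold IsFlow
  refine forall_congr' fun v => ?_
  rw [Finset.sum_filter, Finset.sum_filter, ← sub_eq_zero, ← Finset.sum_sub_distrib]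
  have : ∀ e, (if src e = v then f e else 0) - (if dst e = v then f e else 0)
      = f e * ((if src e = v then 1 else 0) - (if dst e = v then 1 else 0)) := by
    intro e
    by_cases h1 : src e = v <;> by_cases h2 : dst e = v <;> simp [h1, h2]
  rw [Finset.sum_congr rfl (fun e _ => this e)]

theorem nzf [Fintype V] [DecidableEq V] [Fintype E] [DecidableEq E] (src dst : E → V)
    (h : Pool.Agent.TH676.Z.FlowOn src dst ∅ ∅) : NZF src dst := by
  obtain ⟨f, h1, _, h3⟩ := h
  refine ⟨f, fun e => h3 e (Finset.notMem_empty _) (Finset.notMem_empty _), fun x => ?_⟩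
  rw [← h1 x]
  unfold Pool.Agent.TH676.Z.bd
  refine Finset.sum_congr rfl fun e _ => ?_
  unfold ic
  by_cases h4 : src e = x <;> by_cases h5 : dst e = x <;> simp [h4, h5]

theorem charPoly_pos [Fintype V] [DecidableEq V] [Fintype E] [DecidableEq E] (src dst : E → V)
    (f : E → ℤ) (h1 : IsFlow src dst f) (h2 : ∀ e, 1 ≤ |f e| ∧ |f e| ≤ 4) (q : ℕ) (hq : 5 ≤ q) :
    0 < bondCharPoly src dst q :=
  Pool.Agent.TH362.FP.chr_pos src dst f h2 h1 q hq

/-- the reduction modulo five of a flow with values in `{0, 1, -1}` -/
theorem mod5 [Fintype V] [DecidableEq V] [Fintype E] [DecidableEq E] (src dst : E → V)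
    (C : Finset E) (h : IsCycle src dst C) :
    ∃ z : E → ZMod 5, (∀ v, Pool.Agent.TH676.Z.bd src dst z v = 0) ∧
      (∀ e, z e = 0 ∨ z e = 1 ∨ z e = -1) ∧ ∀ e, z e ≠ 0 ↔ e ∈ C := by
  obtain ⟨z, h1, h2, h3⟩ := h
  refine ⟨fun e => ((z e : ℤ) : ZMod 5), fun v => ?_, fun e => ?_, fun e => ?_⟩
  · have h4 := h1 v
    rw [Finset.sum_filter, Finset.sum_filter, ← sub_eq_zero, ← Finset.sum_sub_distrib] at h4
    have h5 := congrArg (fun t : ℤ => (t : ZMod 5)) h4
    simp only [Int.cast_sum, Int.cast_sub, Int.cast_zero] at h5
    refine Eq.trans ?_ h5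
    unfold Pool.Agent.TH676.Z.bd
    rw [Finset.sum_sub_distrib, Finset.sum_sub_distrib]
    congr 1 <;>
    · refine Finset.sum_congr rfl fun e _ => ?_
      split_ifs <;> simp
  · rcases h2 e with h | h | h <;> simp [h]
  · rw [← h3 e]
    have h10 : (1 : ZMod 5) ≠ 0 := by decide
    rcases h2 e with h | h | h <;> simp [h, h10]

/-- the theorem without cycles -/
theorem flowOn0 {V E : Type} [Fintype V] [DecidableEq V] [Fintype E] [DecidableEq E]
    (src dst : E → V)
    (hb : ∀ Y : Finset V, (boundary src dst Y).card ≠ 1)
    (hX : ∀ X : Fin 126 → Finset V, (∀ i j, i ≠ j → Disjoint (X i) (X j)) →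
      (∀ i j, i ≠ j → boundary src dst (X i) ≠ boundary src dst (X j)) →
      ∃ i, (boundary src dst (X i)).card ≠ 3) :
    Pool.Agent.TH676.Z.FlowOn src dst ∅ ∅ := by
  have hc : ∀ x : V → Bool, Pool.Agent.TH362.TF.cut src dst Finset.univ x =
      boundary src dst (Finset.univ.filter (fun v => x v = true)) := by
    intro x
    unfold Pool.Agent.TH362.TF.cut boundary
    refine Finset.filter_congr fun e _ => ?_
    simp only [Finset.mem_filter, Finset.mem_univ, true_and]
    cases x (src e) <;> cases x (dst e) <;> simp
  refine Pool.Agent.X42.FlowCuts.flow_of_fam Pool.Agent.Y335.FL.contract_all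
    Pool.Agent.Y335.FL.ahl src dst ?_ ?_
  · rintro ⟨X, h1, h2, h3⟩
    obtain ⟨i, hi⟩ := hX (fun i => Finset.univ.filter (fun v => X i v = true))
      (fun i j hij => Finset.disjoint_left.2 fun v hv hv' =>
        h1 i j hij v ⟨(Finset.mem_filter.1 hv).2, (Finset.mem_filter.1 hv').2⟩)
      (fun i j hij => by rw [← hc, ← hc]; exact h2 i j hij)
    apply hi
    rw [← hc]
    exact h3 i
  · intro Y _
    rw [Finset.sdiff_empty]
    exact hb Y

/-- the theorem for flows modulo five -/
theorem flowOn {V E : Type} [Fintype V] [DecidableEq V] [Fintype E] [DecidableEq E]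
    (src dst : E → V) (k : ℕ) (C : Fin k → Finset E)
    (hb : ∀ Y : Finset V, (boundary src dst Y).card ≠ 1)
    (hC : ∀ i, ∃ z : E → ZMod 5, (∀ v, Pool.Agent.TH676.Z.bd src dst z v = 0) ∧
      (∀ e, z e = 0 ∨ z e = 1 ∨ z e = -1) ∧ ∀ e, z e ≠ 0 ↔ e ∈ C i)
    (hnew : ∀ i, (C i \ (Finset.univ.filter (fun j => j < i)).biUnion C).card ≤ 11)
    (hX : ∀ X : Fin 126 → Finset V, (∀ i j, i ≠ j → Disjoint (X i) (X j)) →
      (∀ i j, i ≠ j → boundary src dst (X i) ≠ boundary src dst (X j)) →
      (∀ i, Disjoint (boundary src dst (X i)) (Finset.univ.biUnion C)) →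
      ∃ i, (boundary src dst (X i)).card ≠ 3) :
    Pool.Agent.TH676.Z.FlowOn src dst ∅ ∅ := by
  classical
  obtain ⟨W, hW1, hW2, r, hr, hF, hflow, -⟩ :=
    Pool.Agent.Y335.FL.quot' V E src dst (Finset.univ.biUnion C)
  have hpre : ∀ X : Finset W,
      boundary src dst (Finset.univ.filter (fun x => r x ∈ X)) =
      boundary (r ∘ src) (r ∘ dst) X := by
    intro X
    unfold boundary
    refine Finset.filter_congr fun e _ => ?_
    simp
  have h0 := flowOn0 (r ∘ src) (r ∘ dst)
    (fun Y => by rw [← hpre Y]; exact hb _) (fun X hdis hne => by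
      obtain ⟨i, hi⟩ := hX (fun i => Finset.univ.filter (fun x => r x ∈ X i)) (by
        intro i j hij
        have := hdis i j hij
        rw [Finset.disjoint_left] at this ⊢
        intro x hx hx'
        simp only [Finset.mem_filter, Finset.mem_univ, true_and] at hx hx'
        exact this hx hx') (by
        intro i j hij
        rw [hpre, hpre]
        exact hne i j hij) (by
        intro i
        rw [hpre, Finset.disjoint_left]
        intro e he heF
        unfold boundary at he
        rw [Finset.mem_filter] at he
        apply he.2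
        simp only [Function.comp, hF e heF])
      rw [hpre] at hi
      exact ⟨i, hi⟩)
  have h1 := hflow ∅ h0
  rw [Finset.union_empty] at h1
  exact Pool.Agent.Y335.FL.lift_all V E src dst k C hC hnew h1

theorem result :
    ∀ (V E : Type) [Fintype V] [DecidableEq V] [Fintype E] [DecidableEq E] (src dst : E → V)
      (m : ℕ) (C : Fin m → Finset E),
      (∀ i, IsCycle src dst (C i)) →
      (∀ i, (C i \ (Finset.univ.filter (fun j => j < i)).biUnion C).card ≤ 11) →
      (∀ X : Fin 126 → Finset V, (∀ i j, i ≠ j → Disjoint (X i) (X j)) →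
        (∀ i j, i ≠ j → boundary src dst (X i) ≠ boundary src dst (X j)) →
        (∀ i, Disjoint (boundary src dst (X i)) (Finset.univ.biUnion C)) →
        ∃ i, (boundary src dst (X i)).card ≠ 3) →
      (∀ Y : Finset V, (boundary src dst Y).card ≠ 1) →
      (∃ f : E → ℤ, IsFlow src dst f ∧ ∀ e, 1 ≤ |f e| ∧ |f e| ≤ 4) ∧
      ∀ q : ℕ, 5 ≤ q → 0 < bondCharPoly src dst q := by
  intro V E _ _ _ _ src dst m C hC hnew hX hb
  have hfl := flowOn src dst m C hb (fun i => mod5 src dst (C i) (hC i)) hnew hX
  obtain ⟨F, hF, hF0⟩ := int_flow src dst (nzf src dst hfl)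
  have hF1 := (isFlow_iff src dst F).mpr hF0
  exact ⟨⟨F, hF1, hF⟩, fun q hq => charPoly_pos src dst F hF1 hF q hq⟩

/-- The degree of `v`. -/
def degree [DecidableEq V] [Fintype E] (src dst : E → V) (v : V) : ℕ :=
  ∑ e, ((if src e = v then 1 else 0) + (if dst e = v then 1 else 0))

/-- Consequence: the vertices of odd degree can be put into at most 125 classes such that no edge
cut of size three separates two of them in the same class.  (For example, there are at most 125
vertices of odd degree, or at most 125 classes of vertices which are joined by four edge-disjoint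
paths.) -/
theorem odd_classes (V E : Type) [Fintype V] [DecidableEq V] [Fintype E] [DecidableEq E]
    (src dst : E → V) (κ : V → Fin 125)
    (hκ : ∀ u v, Odd (degree src dst u) → Odd (degree src dst v) → κ u = κ v →
      ∀ X : Finset V, (boundary src dst X).card = 3 → (u ∈ X ↔ v ∈ X))
    (hb : ∀ Y : Finset V, (boundary src dst Y).card ≠ 1) :
    (∃ f : E → ℤ, IsFlow src dst f ∧ ∀ e, 1 ≤ |f e| ∧ |f e| ≤ 4) ∧
      ∀ q : ℕ, 5 ≤ q → 0 < bondCharPoly src dst q := by
  refine result V E src dst 0 (fun i => i.elim0) (fun i => i.elim0) (fun i => i.elim0)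
    (fun X hdis _ _ => ?_) hb
  by_contra hcon
  push Not at hcon
  have hodd : ∀ i, ∃ v, v ∈ X i ∧ Odd (degree src dst v) := by
    intro i
    have h1 := Pool.Agent.TH362.TF.parity src dst Finset.univ (fun v => decide (v ∈ X i))
    have h2 : Pool.Agent.TH362.TF.cut src dst Finset.univ (fun v => decide (v ∈ X i)) =
        boundary src dst (X i) := by
      unfold Pool.Agent.TH362.TF.cut boundary
      refine Finset.filter_congr fun e _ => ?_
      by_cases h3 : src e ∈ X i <;> by_cases h4 : dst e ∈ X i <;> simp [h3, h4]
    rw [h2, hcon i] at h1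
    have h5 : ((Pool.Agent.TH362.TF.odd src dst Finset.univ).filter
        (fun v => decide (v ∈ X i) = true)).Nonempty := by
      rw [← Finset.card_pos]
      omega
    obtain ⟨v, hv⟩ := h5
    rw [Finset.mem_filter, decide_eq_true_eq] at hv
    exact ⟨v, hv.2, (Finset.mem_filter.1 hv.1).2⟩
  choose v hv hvo using hodd
  obtain ⟨i, j, hij, hκij⟩ := Fintype.exists_ne_map_eq_of_card_lt (fun i => κ (v i)) (by simp)
  have h1 := (hκ (v i) (v j) (hvo i) (hvo j) hκij (X i) (hcon i)).1 (hv i)
  exact Finset.disjoint_left.1 (hdis i j hij) h1 (hv j)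

open Classical in
/-- The neighbours of `v` (different from `v`) of odd degree. -/
noncomputable def oddNeighbours [Fintype V] [DecidableEq V] [Fintype E] (src dst : E → V) (v : V) :
    Finset V :=
  Finset.univ.filter (fun w => (v ≠ w ∧ ∃ e, (src e = v ∧ dst e = w) ∨ (src e = w ∧ dst e = v)) ∧
    Odd (degree src dst w))

/-- the weight of a vertex -/
noncomputable def weight [Fintype V] [DecidableEq V] [Fintype E] (src dst : E → V) (v : V) : ℝ :=
  1 / (((max (oddNeighbours src dst v).card 3 : ℕ) : ℝ) - 2)

theorem weight_nonneg [Fintype V] [DecidableEq V] [Fintype E] (src dst : E → V) (v : V) :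
    0 ≤ weight src dst v := by
  unfold weight
  have h : (3 : ℝ) ≤ ((max (oddNeighbours src dst v).card 3 : ℕ) : ℝ) := by
    exact_mod_cast le_max_right _ _
  apply div_nonneg zero_le_one
  linarith

theorem exists_odd [Fintype V] [DecidableEq V] [Fintype E] [DecidableEq E] (src dst : E → V)
    (X : Finset V) (hX : (boundary src dst X).card = 3) : ∃ v, v ∈ X ∧ Odd (degree src dst v) := by
  have h1 := Pool.Agent.TH362.TF.parity src dst Finset.univ (fun v => decide (v ∈ X))
  have h2 : Pool.Agent.TH362.TF.cut src dst Finset.univ (fun v => decide (v ∈ X)) =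
      boundary src dst X := by
    unfold Pool.Agent.TH362.TF.cut boundary
    refine Finset.filter_congr fun e _ => ?_
    by_cases h3 : src e ∈ X <;> by_cases h4 : dst e ∈ X <;> simp [h3, h4]
  rw [h2, hX] at h1
  have h5 : ((Pool.Agent.TH362.TF.odd src dst Finset.univ).filter
      (fun v => decide (v ∈ X) = true)).Nonempty := by
    rw [← Finset.card_pos]
    omega
  obtain ⟨v, hv⟩ := h5
  rw [Finset.mem_filter, decide_eq_true_eq] at hv
  exact ⟨v, hv.2, (Finset.mem_filter.1 hv.1).2⟩

/-- the boundary edges at `v` -/
def atv [DecidableEq V] [Fintype E] (src dst : E → V) (X : Finset V) (v : V) : Finset E :=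
  (boundary src dst X).filter (fun e => src e = v ∨ dst e = v)

theorem sum_atv [DecidableEq V] [Fintype E] [DecidableEq E] (src dst : E → V) (X T : Finset V)
    (hT : T ⊆ X) : ∑ v ∈ T, (atv src dst X v).card ≤ (boundary src dst X).card := by
  rw [← Finset.card_biUnion]
  · refine Finset.card_le_card fun e he => ?_
    obtain ⟨v, _, he⟩ := Finset.mem_biUnion.1 he
    exact (Finset.mem_filter.1 he).1
  · intro v hv w hw hne
    change Disjoint (atv src dst X v) (atv src dst X w)
    rw [Finset.disjoint_left]
    intro e he he'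
    obtain ⟨h1, h2⟩ := Finset.mem_filter.1 he
    obtain ⟨_, h3⟩ := Finset.mem_filter.1 he'
    have h4 := (Finset.mem_filter.1 h1).2
    have hv' := hT hv
    have hw' := hT hw
    apply h4
    rcases h2 with h2 | h2 <;> rcases h3 with h3 | h3
    · exact absurd (h2.symm.trans h3) hne
    · rw [h2, h3]
      exact ⟨fun _ => hw', fun _ => hv'⟩
    · rw [h2, h3]
      exact ⟨fun _ => hv', fun _ => hw'⟩
    · exact absurd (h2.symm.trans h3) hne

theorem one_le_weight [Fintype V] [DecidableEq V] [Fintype E] [DecidableEq E] (src dst : E → V)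
    (X : Finset V) (hX : (boundary src dst X).card = 3) :
    1 ≤ ∑ v ∈ X.filter (fun v => Odd (degree src dst v)), weight src dst v := by
  classical
  set T := X.filter (fun v => Odd (degree src dst v)) with hTdef
  have hTX : T ⊆ X := Finset.filter_subset _ _
  have hTne : T.Nonempty := by
    obtain ⟨v, hv, hv'⟩ := exists_odd src dst X hX
    exact ⟨v, Finset.mem_filter.2 ⟨hv, hv'⟩⟩
  by_cases hsm : ∃ v ∈ T, (oddNeighbours src dst v).card ≤ 3
  · obtain ⟨v, hv, hv3⟩ := hsm
    have h5 : weight src dst v = 1 := by
      unfold weight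
      rw [max_eq_right hv3]
      norm_num
    rw [← h5]
    exact Finset.single_le_sum (fun w _ => weight_nonneg src dst w) hv
  · push Not at hsm
    set t : ℝ := (T.card : ℝ) with ht
    have ht1 : 1 ≤ t := by
      rw [ht]
      exact_mod_cast Finset.card_pos.2 hTne
    have hnb : ∀ v ∈ T, ((oddNeighbours src dst v).card : ℝ) + 1 ≤
        t + (atv src dst X v).card := by
      intro v hv
      have h1 : oddNeighbours src dst v ⊆ T.erase v ∪
          (atv src dst X v).image (fun e => if src e = v then dst e else src e) := by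
        intro w hw
        obtain ⟨⟨hne, e, he⟩, hw3⟩ := (Finset.mem_filter.1 hw).2
        by_cases hwX : w ∈ X
        · exact Finset.mem_union_left _ (Finset.mem_erase.2 ⟨hne.symm,
            Finset.mem_filter.2 ⟨hwX, hw3⟩⟩)
        · refine Finset.mem_union_right _ (Finset.mem_image.2 ⟨e, ?_, ?_⟩)
          · have hvX := hTX hv
            refine Finset.mem_filter.2 ⟨Finset.mem_filter.2 ⟨Finset.mem_univ _, ?_⟩, ?_⟩
            · rcases he with ⟨a, b⟩ | ⟨a, b⟩
              · rw [a, b]
                exact fun h => hwX (h.1 hvX)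
              · rw [a, b]
                exact fun h => hwX (h.2 hvX)
            · rcases he with ⟨a, b⟩ | ⟨a, b⟩
              · exact Or.inl a
              · exact Or.inr b
          · rcases he with ⟨a, b⟩ | ⟨a, b⟩
            · rw [if_pos a, b]
            · have : src e ≠ v := by rw [a]; exact hne.symm
              rw [if_neg this, a]
      have h2 := (Finset.card_le_card h1).trans (Finset.card_union_le _ _)
      have h3 : ((atv src dst X v).image (fun e => if src e = v then dst e else src e)).card ≤
          (atv src dst X v).card := Finset.card_image_le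
      rw [Finset.card_erase_of_mem hv] at h2
      have h4 : 0 < T.card := Finset.card_pos.2 ⟨v, hv⟩
      have h5 : (oddNeighbours src dst v).card + 1 ≤ T.card + (atv src dst X v).card := by
        omega
      rw [ht]
      exact_mod_cast h5
    have hg : ∀ v ∈ T, (0 : ℝ) < t - 3 + (atv src dst X v).card := by
      intro v hv
      have h5 := hnb v hv
      have h6 : (4 : ℝ) ≤ (oddNeighbours src dst v).card := by exact_mod_cast hsm v hv
      linarith
    have hw : ∀ v ∈ T, 1 ^ 2 / (t - 3 + (atv src dst X v).card) ≤ weight src dst v := by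
      intro v hv
      have h5 := hnb v hv
      have h6 : (4 : ℝ) ≤ (oddNeighbours src dst v).card := by exact_mod_cast hsm v hv
      unfold weight
      rw [max_eq_left (by have := hsm v hv; omega), one_pow]
      apply one_div_le_one_div_of_le (by linarith)
      linarith
    have h7 := Finset.sq_sum_div_le_sum_sq_div T (fun _ => (1 : ℝ)) hg
    have h8 : ∑ v ∈ T, ((1 : ℝ) ^ 2 / (t - 3 + (atv src dst X v).card)) ≤
        ∑ v ∈ T, weight src dst v := Finset.sum_le_sum hw
    refine le_trans ?_ (h7.trans h8)
    have h9 : ∑ _v ∈ T, (1 : ℝ) = t := by simp [ht]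
    have h10 : ∑ v ∈ T, (t - 3 + ((atv src dst X v).card : ℝ)) ≤ t ^ 2 - 3 * t + 3 := by
      rw [Finset.sum_add_distrib, Finset.sum_const, nsmul_eq_mul, ← Nat.cast_sum]
      have h11 : ((∑ v ∈ T, (atv src dst X v).card : ℕ) : ℝ) ≤ 3 := by
        have := sum_atv src dst X T hTX
        rw [hX] at this
        exact_mod_cast this
      rw [← ht]
      linarith [sq t]
    have h12 : 0 < ∑ v ∈ T, (t - 3 + ((atv src dst X v).card : ℝ)) := Finset.sum_pos hg hTne
    rw [h9, le_div_iff₀ h12, one_mul]
    nlinarith

/-- Consequence: the sum of the numbers `1 / (max (|N(v)|, 3) - 2)` over all vertices `v` of odd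
degree is less than 126, where `N(v)` is the set of the neighbours of odd degree. -/
theorem odd_degree_weights (V E : Type) [Fintype V] [DecidableEq V] [Fintype E] [DecidableEq E]
    (src dst : E → V)
    (hw : ∑ v ∈ Finset.univ.filter (fun v => Odd (degree src dst v)),
      1 / (((max (oddNeighbours src dst v).card 3 : ℕ) : ℝ) - 2) < 126)
    (hb : ∀ Y : Finset V, (boundary src dst Y).card ≠ 1) :
    (∃ f : E → ℤ, IsFlow src dst f ∧ ∀ e, 1 ≤ |f e| ∧ |f e| ≤ 4) ∧
      ∀ q : ℕ, 5 ≤ q → 0 < bondCharPoly src dst q := by
  classical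
  refine result V E src dst 0 (fun i => i.elim0) (fun i => i.elim0) (fun i => i.elim0)
    (fun X hdis _ _ => ?_) hb
  by_contra hcon
  push Not at hcon
  have h1 : ∑ i : Fin 126, (1 : ℝ) ≤ ∑ i : Fin 126,
      ∑ v ∈ (X i).filter (fun v => Odd (degree src dst v)), weight src dst v :=
    Finset.sum_le_sum fun i _ => one_le_weight src dst (X i) (hcon i)
  rw [← Finset.sum_biUnion (by
    intro i _ j _ hij
    exact Finset.disjoint_filter_filter (hdis i j hij))] at h1
  have h2 : ∑ v ∈ Finset.univ.biUnion (fun i => (X i).filter (fun v => Odd (degree src dst v))),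
      weight src dst v ≤ ∑ v ∈ Finset.univ.filter (fun v => Odd (degree src dst v)),
      weight src dst v := by
    refine Finset.sum_le_sum_of_subset_of_nonneg ?_ fun v _ _ => weight_nonneg src dst v
    intro v hv
    obtain ⟨i, _, hv⟩ := Finset.mem_biUnion.1 hv
    exact Finset.mem_filter.2 ⟨Finset.mem_univ _, (Finset.mem_filter.1 hv).2⟩
  have h3 := h1.trans h2
  rw [Finset.sum_const, Finset.card_univ, Fintype.card_fin, nsmul_eq_mul] at h3
  unfold weight at h3
  norm_num at h3
  norm_num at hw
  linarith

/-- Consequence: at most 125 edge cuts of size three. -/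
theorem few_cuts (V E : Type) [Fintype V] [DecidableEq V] [Fintype E] [DecidableEq E]
    (src dst : E → V)
    (hn : ((Finset.univ.image (boundary src dst)).filter (fun C => C.card = 3)).card ≤ 125)
    (hb : ∀ Y : Finset V, (boundary src dst Y).card ≠ 1) :
    ∃ f : E → ℤ, IsFlow src dst f ∧ ∀ e, 1 ≤ |f e| ∧ |f e| ≤ 4 := by
  refine (result V E src dst 0 (fun i => i.elim0) (fun i => i.elim0) (fun i => i.elim0)
    (fun X _ hX _ => ?_) hb).1
  by_contra hcon
  push Not at hcon
  have h126 := Finset.card_le_card_of_injOn (s := (Finset.univ : Finset (Fin 126)))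
    (t := (Finset.univ.image (boundary src dst)).filter (fun C => C.card = 3))
    (fun i => boundary src dst (X i))
    (fun i _ => by
      simp only [Finset.coe_filter, Finset.mem_image, Finset.mem_univ, true_and,
        Set.mem_ofPred_eq]
      exact ⟨⟨X i, rfl⟩, hcon i⟩)
    (fun i _ j _ hij => by
      by_contra hne
      exact hX i j hne hij)
  rw [Finset.card_univ, Fintype.card_fin] at h126
  omega

end Pool.Agent.Results.MP_c8786f_co.FewThreeEdgeCuts
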