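import Mathlib
import Pool.Agent.TH497.PW.IntFlow
import Pool.Agent.TH362.FP.Pos
import Pool.Agent.Y335.FL.Main
import Pool.Agent.X65.FT.Leaf

set_option autoImplicit false

/-!
# Graphs without subtrees with 64 leaves (MP_c8786f_co)

Let `G` be a bridgeless multigraph in which every connected set of vertices has at most 63
neighbours of degree at least three outside the set.  Then `G` has a nowhere-zero 5-flow, and the
characteristic polynomial of its bond matroid is positive at all integers `q ≥ 5`.  In particular
this holds for all bridgeless graphs without a `K_{1,64}`-minor, that is, without a subtree with 64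
leaves.  (Tutte's 12-cage has a spanning tree with 64 leaves, and none with 65.)

Proof.  The class is closed under contractions (not under deletions, because of the condition on the
degrees).  Let `G` be a counterexample with as few edges as possible.  Circuits with at most eleven
edges can be contracted (library `Y335/FL` of helper335), and so can one of two edges which form a
cut; hence `G` has girth at least twelve and all degrees are at least three (apart from isolated
vertices).  Grow a binary tree of depth five from both ends of an edge; it has 126 vertices.  The at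
most 62 vertices of the binary trees of depth four form a connected set, and the other 64 vertices
are neighbours of this set.
-/


namespace Pool.Agent.Results.MP_c8786f_co.ManyLeaves

open Pool.Agent.TH497.PW

variable {V E : Type}

/-- The edges with exactly one end in `X`. -/
def boundary [DecidableEq V] [Fintype E] (src dst : E → V) (X : Finset V) : Finset E :=
  Finset.univ.filter (fun e => ¬ (src e ∈ X ↔ dst e ∈ X))

/-- Kirchhoff's law. -/
def IsFlow [DecidableEq V] [Fintype E] (src dst : E → V) (f : E → ℤ) : Prop :=
  ∀ v : V, ∑ e ∈ Finset.univ.filter (fun e => src e = v), f e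
    = ∑ e ∈ Finset.univ.filter (fun e => dst e = v), f e

/-- The degree of `v`; loops are not counted. -/
def properDegree [DecidableEq V] [Fintype E] (src dst : E → V) (v : V) : ℕ :=
  (Finset.univ.filter (fun e => src e ≠ dst e ∧ (src e = v ∨ dst e = v))).card

/-- The number of the components of the graph with the vertices `V` and the edges `A`. -/
noncomputable def components (src dst : E → V) (A : Finset E) : ℕ :=
  Nat.card (SimpleGraph.fromRel
    (fun u v : V => ∃ e ∈ A, src e = u ∧ dst e = v)).ConnectedComponent

/-- The rank of `A` in the cycle matroid of the graph. -/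
noncomputable def cycleRank [Fintype V] (src dst : E → V) (A : Finset E) : ℕ :=
  Fintype.card V - components src dst A

/-- The rank of `A` in the bond matroid of the graph (the dual of the cycle matroid). -/
noncomputable def bondRank [Fintype V] [Fintype E] [DecidableEq E] (src dst : E → V)
    (A : Finset E) : ℕ :=
  A.card + cycleRank src dst Aᶜ - cycleRank src dst Finset.univ

/-- The characteristic polynomial of the bond matroid at the integer `x`. -/
noncomputable def bondCharPoly [Fintype V] [Fintype E] [DecidableEq E] (src dst : E → V)
    (x : ℤ) : ℤ :=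
  ∑ A : Finset E, (-1) ^ A.card * x ^ (bondRank src dst Finset.univ - bondRank src dst A)

theorem isFlow_iff [DecidableEq V] [Fintype E] (src dst : E → V) (f : E → ℤ) :
    IsFlow src dst f ↔
      ∀ v, ∑ e, f e * ((if src e = v then 1 else 0) - (if dst e = v then 1 else 0)) = 0 := by
  unfold IsFlow
  refine forall_congr' fun v => ?_
  rw [Finset.sum_filter, Finset.sum_filter, ← sub_eq_zero, ← Finset.sum_sub_distrib]
  have : ∀ e, (if src e = v then f e else 0) - (if dst e = v then f e else 0)
      = f e * ((if src e = v then 1 else 0) - (if dst e = v then 1 else 0)) := by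
    intro e
    by_cases h1 : src e = v <;> by_cases h2 : dst e = v <;> simp [h1, h2]
  rw [Finset.sum_congr rfl (fun e _ => this e)]

theorem nzf [Fintype V] [DecidableEq V] [Fintype E] [DecidableEq E] (src dst : E → V)
    (h : Pool.Agent.TH676.Z.FlowOn src dst ∅ ∅) : NZF src dst := by
  obtain ⟨f, h1, _, h3⟩ := h
  refine ⟨f, fun e => h3 e (Finset.notMem_empty _) (Finset.notMem_empty _), fun x => ?_⟩
  rw [← h1 x]
  unfold Pool.Agent.TH676.Z.bd
  refine Finset.sum_congr rfl fun e _ => ?_
  unfold ic
  by_cases h4 : src e = x <;> by_cases h5 : dst e = x <;> simp [h4, h5]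

theorem charPoly_pos [Fintype V] [DecidableEq V] [Fintype E] [DecidableEq E] (src dst : E → V)
    (f : E → ℤ) (h1 : IsFlow src dst f) (h2 : ∀ e, 1 ≤ |f e| ∧ |f e| ≤ 4) (q : ℕ) (hq : 5 ≤ q) :
    0 < bondCharPoly src dst q :=
  Pool.Agent.TH362.FP.chr_pos src dst f h2 h1 q hq

/-- There is an edge between `x` and `y`, and `x ≠ y`. -/
def Adjacent (src dst : E → V) (x y : V) : Prop :=
  x ≠ y ∧ ∃ e, (src e = x ∧ dst e = y) ∨ (src e = y ∧ dst e = x)

/-- Every nonempty proper subset of `A` has a vertex which is adjacent to another vertex of
`A` outside this subset. -/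
def IsConnectedSet (src dst : E → V) (A : Finset V) : Prop :=
  ∀ B ⊆ A, B.Nonempty → B ≠ A → ∃ x ∈ B, ∃ y ∈ A, y ∉ B ∧ Adjacent src dst x y

theorem result :
    ∀ (V E : Type) [Fintype V] [DecidableEq V] [Fintype E] [DecidableEq E] (src dst : E → V),
      (∀ A L : Finset V, IsConnectedSet src dst A →
        (∀ v ∈ L, v ∉ A ∧ 3 ≤ properDegree src dst v ∧ ∃ a ∈ A, Adjacent src dst a v) →
          L.card ≤ 63) →
      (∀ Y : Finset V, (boundary src dst Y).card ≠ 1) →
      (∃ f : E → ℤ, IsFlow src dst f ∧ ∀ e, 1 ≤ |f e| ∧ |f e| ≤ 4) ∧
      ∀ q : ℕ, 5 ≤ q → 0 < bondCharPoly src dst q := by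
  intro V E _ _ _ _ src dst hm hb
  have hcl : Pool.Agent.X65.FT.ClL src dst := fun A hA =>
    hm A _ hA (fun _ hv => Pool.Agent.X65.FT.mem_nb.1 hv)
  have hfl := Pool.Agent.X65.FT.flow_of_ClL Pool.Agent.Y335.FL.contract_all src dst hcl
    (fun Y _ => by rw [Finset.sdiff_empty]; exact hb Y)
  obtain ⟨F, hF, hF0⟩ := int_flow src dst (nzf src dst hfl)
  have hF1 := (isFlow_iff src dst F).mpr hF0
  exact ⟨⟨F, hF1, hF⟩, fun q hq => charPoly_pos src dst F hF1 hF q hq⟩

end Pool.Agent.Results.MP_c8786f_co.ManyLeaves
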