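import Mathlib
import Pool.Agent.TH497.PW.IntFlow
import Pool.Agent.TH362.FP.Pos
import Pool.Agent.Y335.FL.Main
import Pool.Agent.X65.FT.Sparse

set_option autoImplicit false

/-!
# Graphs without large sparse induced subgraphs (MP_c8786f_co)

Let `G` be a bridgeless multigraph in which every set of vertices of degree at least three that
induces a bipartite graph of girth at least twelve and maximum degree at most three (parallel edges
and loops are disregarded) has at most 125 elements.  Then `G` has a nowhere-zero 5-flow, and the
characteristic polynomial of its bond matroid is positive at all integers `q ≥ 5`.  Tutte's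
12-cage shows that 125 is the limit of the method.

Proof.  The class is closed under contractions: if the edge `uv` is contracted and the new vertex
has degree at least three, then so has `u` or `v`, and one may replace the new vertex by it.  Let
`G` be a counterexample with as few edges as possible.  Circuits with at most eleven edges can be
contracted (library `Y335/FL` of helper335), and so can one of two edges which form a cut; hence
`G` has girth at least twelve and all degrees are at least three (apart from isolated vertices).
Grow a binary tree of depth five from both ends of an edge.  It has 126 vertices, and as the girth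
is at least twelve, the other edges between them join leaves on different sides, and every leaf is
in at most two of them.  So these 126 vertices induce a bipartite graph of maximum degree three.
-/


namespace Pool.Agent.Results.MP_c8786f_co.SparseInduced

open Pool.Agent.TH497.PW

variable {V E : Type}

/-- The edges with exactly one end in `X`. -/
def boundary [DecidableEq V] [Fintype E] (src dst : E → V) (X : Finset V) : Finset E :=
  Finset.univ.filter (fun e => ¬ (src e ∈ X ↔ dst e ∈ X))

/-- Kirchhoff's law. -/
def IsFlow [DecidableEq V] [Fintype E] (src dst : E → V) (f : E → ℤ) : Prop :=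
  ∀ v : V, ∑ e ∈ Finset.univ.filter (fun e => src e = v), f e
    = ∑ e ∈ Finset.univ.filter (fun e => dst e = v), f e

/-- The degree of `v`; loops are not counted. -/
def properDegree [DecidableEq V] [Fintype E] (src dst : E → V) (v : V) : ℕ :=
  (Finset.univ.filter (fun e => src e ≠ dst e ∧ (src e = v ∨ dst e = v))).card

/-- The number of the components of the graph with the vertices `V` and the edges `A`. -/
noncomputable def components (src dst : E → V) (A : Finset E) : ℕ :=
  Nat.card (SimpleGraph.fromRel
    (fun u v : V => ∃ e ∈ A, src e = u ∧ dst e = v)).ConnectedComponent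

/-- The rank of `A` in the cycle matroid of the graph. -/
noncomputable def cycleRank [Fintype V] (src dst : E → V) (A : Finset E) : ℕ :=
  Fintype.card V - components src dst A

/-- The rank of `A` in the bond matroid of the graph (the dual of the cycle matroid). -/
noncomputable def bondRank [Fintype V] [Fintype E] [DecidableEq E] (src dst : E → V)
    (A : Finset E) : ℕ :=
  A.card + cycleRank src dst Aᶜ - cycleRank src dst Finset.univ

/-- The characteristic polynomial of the bond matroid at the integer `x`. -/
noncomputable def bondCharPoly [Fintype V] [Fintype E] [DecidableEq E] (src dst : E → V)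
    (x : ℤ) : ℤ :=
  ∑ A : Finset E, (-1) ^ A.card * x ^ (bondRank src dst Finset.univ - bondRank src dst A)

theorem isFlow_iff [DecidableEq V] [Fintype E] (src dst : E → V) (f : E → ℤ) :
    IsFlow src dst f ↔
      ∀ v, ∑ e, f e * ((if src e = v then 1 else 0) - (if dst e = v then 1 else 0)) = 0 := by
  unfold IsFlow
  refine forall_congr' fun v => ?_
  rw [Finset.sum_filter, Finset.sum_filter, ← sub_eq_zero, ← Finset.sum_sub_distrib]
  have : ∀ e, (if src e = v then f e else 0) - (if dst e = v then f e else 0)
      = f e * ((if src e = v then 1 else 0) - (if dst e = v then 1 else 0)) := by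
    intro e
    by_cases h1 : src e = v <;> by_cases h2 : dst e = v <;> simp [h1, h2]
  rw [Finset.sum_congr rfl (fun e _ => this e)]

theorem nzf [Fintype V] [DecidableEq V] [Fintype E] [DecidableEq E] (src dst : E → V)
    (h : Pool.Agent.TH676.Z.FlowOn src dst ∅ ∅) : NZF src dst := by
  obtain ⟨f, h1, _, h3⟩ := h
  refine ⟨f, fun e => h3 e (Finset.notMem_empty _) (Finset.notMem_empty _), fun x => ?_⟩
  rw [← h1 x]
  unfold Pool.Agent.TH676.Z.bd
  refine Finset.sum_congr rfl fun e _ => ?_
  unfold ic
  by_cases h4 : src e = x <;> by_cases h5 : dst e = x <;> simp [h4, h5]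

theorem charPoly_pos [Fintype V] [DecidableEq V] [Fintype E] [DecidableEq E] (src dst : E → V)
    (f : E → ℤ) (h1 : IsFlow src dst f) (h2 : ∀ e, 1 ≤ |f e| ∧ |f e| ≤ 4) (q : ℕ) (hq : 5 ≤ q) :
    0 < bondCharPoly src dst q :=
  Pool.Agent.TH362.FP.chr_pos src dst f h2 h1 q hq

/-- There is an edge between `x` and `y`, and `x ≠ y`. -/
def Adjacent (src dst : E → V) (x y : V) : Prop :=
  x ≠ y ∧ ∃ e, (src e = x ∧ dst e = y) ∨ (src e = y ∧ dst e = x)

/-- The vertices in `B` induce a bipartite graph (with the classes `B ∩ P` and `B \ P`) in which
all degrees are at most three and which has no circuit `c 0, ..., c (n - 1)` with at most eleven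
vertices. -/
def InducesSparse (src dst : E → V) (B : Finset V) : Prop :=
  (∃ P : Finset V, ∀ x ∈ B, ∀ y ∈ B, (x ∈ P ↔ y ∈ P) → ¬ Adjacent src dst x y) ∧
  (∀ x ∈ B, ∀ Y ⊆ B, (∀ y ∈ Y, Adjacent src dst x y) → Y.card ≤ 3) ∧
  ∀ (n : ℕ) (c : ℕ → V), 3 ≤ n → n ≤ 11 → (∀ i, i < n → c i ∈ B) →
    (∀ i j, i < j → j < n → c i ≠ c j) →
    (∀ i, i + 1 < n → Adjacent src dst (c i) (c (i + 1))) → ¬ Adjacent src dst (c (n - 1)) (c 0)

theorem result :
    ∀ (V E : Type) [Fintype V] [DecidableEq V] [Fintype E] [DecidableEq E] (src dst : E → V),
      (∀ B : Finset V, (∀ x ∈ B, 3 ≤ properDegree src dst x) → InducesSparse src dst B →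
        B.card ≤ 125) →
      (∀ Y : Finset V, (boundary src dst Y).card ≠ 1) →
      (∃ f : E → ℤ, IsFlow src dst f ∧ ∀ e, 1 ≤ |f e| ∧ |f e| ≤ 4) ∧
      ∀ q : ℕ, 5 ≤ q → 0 < bondCharPoly src dst q := by
  intro V E _ _ _ _ src dst hm hb
  have hcl : Pool.Agent.X65.FT.ClS src dst := fun B hB =>
    hm B hB.deg ⟨hB.bip, hB.sub, hB.girth⟩
  have hfl := Pool.Agent.X65.FT.flow_of_ClS Pool.Agent.Y335.FL.contract_all src dst hcl
    (fun Y _ => by rw [Finset.sdiff_empty]; exact hb Y)
  obtain ⟨F, hF, hF0⟩ := int_flow src dst (nzf src dst hfl)
  have hF1 := (isFlow_iff src dst F).mpr hF0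
  exact ⟨⟨F, hF1, hF⟩, fun q hq => charPoly_pos src dst F hF1 hF q hq⟩

end Pool.Agent.Results.MP_c8786f_co.SparseInduced
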